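import Pool.Agent.H73.CBE.Stmts

set_option autoImplicit false

open Set Filter Topology

namespace Pool.CBE

theorem net_dl_self (h1 : DLBStmt) {n : ℕ} (z : E n) (hz : ‖z‖ = 1) : dl z z = 0 := by
  obtain ⟨e, -, h0, -, -⟩ := h1 n z z hz hz
  have h : (inner ℂ z z : ℂ) = 1 := by
    rw [inner_self_eq_norm_sq_to_K, hz]; simp
  rw [h] at e
  have : dl z z ^ 2 = 0 := by rw [e]; simp
  exact pow_eq_zero_iff (two_ne_zero) |>.mp this

theorem net_card (h1 : DLBStmt) (h2 : PCKStmt) {n : ℕ} {s : ℝ} (hn : 2 ≤ n) (hs : 0 < s)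
    (T : Finset (E n)) (hT : Sep s T) :
    (T.card : ℝ) ≤ 5 ^ (2 * n) * (1 + 4 * 1 / s) ^ (2 * n - 2) := by
  rcases T.eq_empty_or_nonempty with rfl | ⟨z, hz⟩
  · simp only [Finset.card_empty, Nat.cast_zero]; positivity
  · have hz1 := hT.1 z hz
    have h := h2 n s 1 T z hn hs zero_le_one hT hz1
    have e : near T z 1 = T := by
      unfold near
      refine Finset.filter_true_of_mem fun x hx => ?_
      exact (h1 n z x hz1 (hT.1 x hx)).2.2.2.1
    rwa [e] at h

theorem NET_thm (h1 : DLBStmt) (h2 : PCKStmt) : NETStmt := by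
  classical
  intro n s hn hs
  have hb := net_card h1 h2 (n := n) (s := s) hn hs
  set B : ℝ := 5 ^ (2 * n) * (1 + 4 * 1 / s) ^ (2 * n - 2)
  have hB : ∀ T : Finset (E n), Sep s T → T.card ≤ ⌊B⌋₊ := fun T hT => Nat.le_floor (hb T hT)
  let P : ℕ → Prop := fun m => ∃ T : Finset (E n), Sep s T ∧ T.card = m
  have h0 : P 0 := ⟨∅, ⟨by simp, by simp⟩, rfl⟩
  obtain ⟨T, hT, hc⟩ : P (Nat.findGreatest P ⌊B⌋₊) :=
    Nat.findGreatest_spec (P := P) (Nat.zero_le _) h0
  refine ⟨T, hT, fun z hz => ?_⟩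
  by_contra hne
  push Not at hne
  have hzT : z ∉ T := fun h => by
    have := hne z h
    rw [net_dl_self h1 z hz] at this
    linarith
  have hS : Sep s (insert z T) := by
    refine ⟨fun x hx => ?_, fun x hx y hy hxy => ?_⟩
    · rcases Finset.mem_insert.mp hx with rfl | hx
      · exact hz
      · exact hT.1 x hx
    · rcases Finset.mem_insert.mp hx with hx1 | hx1
      · rcases Finset.mem_insert.mp hy with hy1 | hy1
        · exact absurd (hx1.trans hy1.symm) hxy
        · rw [hx1, (h1 n _ y hz (hT.1 y hy1)).2.1]; exact hne y hy1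
      · rcases Finset.mem_insert.mp hy with hy1 | hy1
        · rw [hy1]; exact hne x hx1
        · exact hT.2 x hx1 y hy1 hxy
  have hle : (insert z T).card ≤ Nat.findGreatest P ⌊B⌋₊ :=
    Nat.le_findGreatest (hB _ hS) ⟨_, hS, rfl⟩
  rw [Finset.card_insert_of_notMem hzT, hc] at hle
  omega

end Pool.CBE
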